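import Pool.Agent.H84.NT.THNd
import Pool.Agent.H3.NT.FTNa

/-!
# Thin near ties: the resampled environment is crudely regular
-/

open MeasureTheory ProbabilityTheory
open scoped ENNReal

namespace Pool.Agent.H95.NT

open Pool.Agent.H99.NS Pool.Agent.H22.LPP Pool.Agent.H95.INS Pool.Agent.H76.ND Pool.Agent.H95.ND
open Pool.Agent.H84.NT hiding lv two_lv
open Pool.Agent.H84.NT5
open Pool.Agent.H84.NT5.TH
open Pool.Agent.H3.NT.F (RGk_congr)

theorem preimage_le {q : ℝ} (z : Site) (S : Set Env) : PE q (shiftE z ⁻¹' S) ≤ PE q S := by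
  have h := mp_shiftE q z
  calc PE q (shiftE z ⁻¹' S) ≤ PE q (shiftE z ⁻¹' (toMeasurable (PE q) S)) :=
        measure_mono (Set.preimage_mono (subset_toMeasurable _ _))
    _ = PE q (toMeasurable (PE q) S) :=
        h.measure_preimage (measurableSet_toMeasurable _ _).nullMeasurableSet
    _ = PE q S := measure_toMeasurable S

theorem pf_E3 : T_E3 := by
  intro h_MAR h_FIM q p₀ D K u b j p x hq hp0 hp hx hR
  subst hq
  have hpH : pH D ≤ 1 := by unfold pH; exact prob_le_one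
  have ha0 : pH D ^ 2 / 4 ≠ 0 := by
    refine (ENNReal.div_pos (pow_ne_zero 2 ?_) (by norm_num)).ne'
    exact (hp0.trans_le hp).ne'
  have hat : pH D ^ 2 / 4 ≠ ∞ := by
    refine ne_top_of_le_ne_top ENNReal.one_ne_top ?_
    calc pH D ^ 2 / 4 ≤ 1 ^ 2 / 4 := by gcongr
      _ ≤ 1 := by rw [one_pow]; exact ENNReal.div_le_of_le_mul (by norm_num)
  -- one site
  have one : ∀ z : Site, PE D.q {ω | ¬ (PE D.q {ω1 | ¬ RGk K (shiftE (-z)
      (splice (Bx D) ω1 (shiftE z ω)))} ≤ pH D ^ 2 / 4)} ≤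
      ENNReal.ofReal x * (4 / p₀ ^ 2) := by
    intro z
    have hdep : DepOn ((fun y : Site => y + -z) '' dom (oK K) (eK K))
        (fun ω => ¬ RGk K (shiftE (-z) ω)) := by
      intro ω ω' h
      have h1 : ∀ y ∈ dom (oK K) (eK K), shiftE (-z) ω y = shiftE (-z) ω' y := by
        intro y hy
        exact h _ ⟨y, hy, rfl⟩
      apply propext
      exact not_congr ⟨RGk_congr h1, RGk_congr fun y hy => (h1 y hy).symm⟩
    have hm : MeasurableSet {ω | ¬ RGk K (shiftE (-z) ω)} :=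
      h_FIM _ _ ((dom_finite _ _).image _) hdep
    have h1 := h_MAR D (fun ω => ¬ RGk K (shiftE (-z) ω)) (pH D ^ 2 / 4) hm ha0 hat
    have h2 : PE D.q {ω | ¬ RGk K (shiftE (-z) ω)} ≤ ENNReal.ofReal x :=
      (preimage_le (-z) {ω | ¬ RGk K ω}).trans hR
    have h3 : PE D.q {ω | ¬ (PE D.q {ω1 | ¬ RGk K (shiftE (-z)
      (splice (Bx D) ω1 (shiftE z ω)))} ≤ pH D ^ 2 / 4)} ≤
        PE D.q {out | ¬ Pin D out (fun ω => ¬ RGk K (shiftE (-z) ω)) ≤ pH D ^ 2 / 4} :=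
      preimage_le z {out | ¬ Pin D out (fun ω => ¬ RGk K (shiftE (-z) ω)) ≤ pH D ^ 2 / 4}
    refine h3.trans (h1.trans ?_)
    rw [ENNReal.div_eq_inv_mul, mul_comm]
    have h4 : (pH D ^ 2 / 4)⁻¹ ≤ 4 / p₀ ^ 2 := by
      rw [ENNReal.inv_div (Or.inl (by norm_num)) (Or.inl (by norm_num))]
      gcongr
    gcongr
  -- the union
  set I := Finset.Icc (-(64 : ℤ) ^ K) (64 ^ K) with hI
  have hcard : I.card = 2 * 64 ^ K + 1 := by
    rw [hI, Int.card_Icc]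
    have : (0 : ℤ) < 64 ^ K := by positivity
    have h5 : (64 : ℤ) ^ K + 1 - -64 ^ K = ((2 * 64 ^ K + 1 : ℕ) : ℤ) := by
      push_cast; ring
    rw [h5, Int.toNat_natCast]
  have hsub : {ω | ∃ l : ℕ, l < 64 ^ u ∧ ∃ i ∈ I,
      ¬ (PE D.q {ω1 | ¬ RGk K (shiftE (-((sb j b l + 32 * 64 ^ b, p + 16 ^ b * i) : Site))
        (splice (Bx D) ω1 (shiftE (sb j b l + 32 * 64 ^ b, p + 16 ^ b * i) ω)))} ≤
      pH D ^ 2 / 4)} ⊆ ⋃ z ∈ (Finset.range (64 ^ u)) ×ˢ I,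
      {ω | ¬ (PE D.q {ω1 | ¬ RGk K (shiftE (-((sb j b z.1 + 32 * 64 ^ b, p + 16 ^ b * z.2) : Site))
        (splice (Bx D) ω1 (shiftE (sb j b z.1 + 32 * 64 ^ b, p + 16 ^ b * z.2) ω)))} ≤
      pH D ^ 2 / 4)} := by
    rintro ω ⟨l, hl, i, hi, h⟩
    simp only [Set.mem_iUnion]
    exact ⟨(l, i), Finset.mem_product.2 ⟨Finset.mem_range.2 hl, hi⟩, h⟩
  refine (measure_mono hsub).trans ((measure_biUnion_finset_le _ _).trans ?_)
  calc _ ≤ ∑ z ∈ (Finset.range (64 ^ u)) ×ˢ I, ENNReal.ofReal x * (4 / p₀ ^ 2) :=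
        Finset.sum_le_sum fun z _ => one _
    _ = _ := by
        rw [Finset.sum_const, Finset.card_product, Finset.card_range, hcard, nsmul_eq_mul]

end Pool.Agent.H95.NT
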